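import Pool.Agent.Helper3.DL.Defs

/-!
# DL-2: norms, Minkowski and Hoelder (module for MP_1f5042_nt)
-/

namespace Pool.Agent.DL

open MeasureTheory Finset

variable {n k : ℕ}

theorem NN_translate (s : ℕ) (f : (Fin n → ℝ) → ℂ) (x₀ : Fin n → ℝ) :
    NN s (fun x => f (x₀ + x)) = NN s f := by
  unfold NN
  rw [lintegral_add_left_eq_self (μ := volume) (fun x => ‖f x‖ₑ ^ (2 * s)) x₀]

theorem enorm_ee (t : ℝ) : ‖ee t‖ₑ = 1 := by
  have h : ‖ee t‖ = 1 := by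
    unfold ee
    have h2 : (2 * Real.pi * t * Complex.I : ℂ) = ((2 * Real.pi * t : ℝ) : ℂ) * Complex.I := by
      push_cast; ring
    rw [h2, Complex.norm_exp_ofReal_mul_I]
  rw [← ofReal_norm, h, ENNReal.ofReal_one]

theorem NN_mod (s : ℕ) (f : (Fin n → ℝ) → ℂ) (ξ₀ : Fin n → ℝ) :
    NN s (fun x => ee (dot x ξ₀) * f x) = NN s f := by
  unfold NN
  simp only [enorm_mul, enorm_ee, one_mul]

theorem NN_pow {s : ℕ} (hs : 1 ≤ s) (f : (Fin n → ℝ) → ℂ) :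
    NN s f ^ s = ∫⁻ x, ‖f x‖ₑ ^ (2 * s) := by
  unfold NN
  have hs' : (s : ℝ) ≠ 0 := by
    have : s ≠ 0 := by omega
    exact_mod_cast this
  rw [← ENNReal.rpow_natCast, ← ENNReal.rpow_mul, one_div, inv_mul_cancel₀ hs', ENNReal.rpow_one]

theorem Ls_sum_le {X : Type} [MeasurableSpace X] (μ : Measure X) {s : ℕ} (hs : 1 ≤ s)
    {ι : Type} (S : Finset ι) (F : ι → X → ENNReal) (hF : ∀ j ∈ S, Measurable (F j)) :
    (∫⁻ x, (∑ j ∈ S, F j x) ^ s ∂μ) ^ (1 / (s : ℝ)) ≤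
      ∑ j ∈ S, (∫⁻ x, F j x ^ s ∂μ) ^ (1 / (s : ℝ)) := by
  classical
  have hs1 : (1 : ℝ) ≤ (s : ℝ) := by exact_mod_cast hs
  have hs0 : s ≠ 0 := by omega
  induction S using Finset.induction_on with
  | empty =>
    simp only [Finset.sum_empty, zero_pow hs0, lintegral_zero]
    rw [ENNReal.zero_rpow_of_pos (by positivity)]
  | insert a S ha ih =>
    have hSm : Measurable (fun x => ∑ j ∈ S, F j x) :=
      Finset.measurable_sum _ (fun j hj => hF j (Finset.mem_insert_of_mem hj))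
    have h1 := ENNReal.lintegral_Lp_add_le (μ := μ) (p := (s : ℝ)) (f := F a)
      (g := fun x => ∑ j ∈ S, F j x) (hF a (Finset.mem_insert_self _ _)).aemeasurable
      hSm.aemeasurable hs1
    simp only [Pi.add_apply, ENNReal.rpow_natCast] at h1
    rw [Finset.sum_insert ha]
    calc (∫⁻ x, (∑ j ∈ insert a S, F j x) ^ s ∂μ) ^ (1 / (s : ℝ))
        = (∫⁻ x, (F a x + ∑ j ∈ S, F j x) ^ s ∂μ) ^ (1 / (s : ℝ)) := by
          simp only [Finset.sum_insert ha]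
      _ ≤ (∫⁻ x, F a x ^ s ∂μ) ^ (1 / (s : ℝ)) +
          (∫⁻ x, (∑ j ∈ S, F j x) ^ s ∂μ) ^ (1 / (s : ℝ)) := h1
      _ ≤ _ := by
          gcongr
          exact ih (fun j hj => hF j (Finset.mem_insert_of_mem hj))

theorem NN_sum_le {s : ℕ} (hs : 1 ≤ s) {ι : Type} (S : Finset ι) (f : ι → (Fin n → ℝ) → ℂ)
    (hf : ∀ j ∈ S, Continuous (f j)) :
    NN s (fun x => ∑ j ∈ S, f j x) ≤ S.card * ∑ j ∈ S, NN s (f j) := by
  have hs0 : s ≠ 0 := by omega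
  have hsr : (s : ℝ) ≠ 0 := by exact_mod_cast hs0
  have hpt : ∀ x, ‖∑ j ∈ S, f j x‖ₑ ^ (2 * s) ≤ (S.card * ∑ j ∈ S, ‖f j x‖ₑ ^ 2) ^ s := by
    intro x
    rw [pow_mul]
    gcongr
    -- Cauchy-Schwarz
    have h1 : ‖∑ j ∈ S, f j x‖ ≤ ∑ j ∈ S, ‖f j x‖ := norm_sum_le _ _
    have h2 : ‖∑ j ∈ S, f j x‖ ^ 2 ≤ S.card * ∑ j ∈ S, ‖f j x‖ ^ 2 := by
      calc ‖∑ j ∈ S, f j x‖ ^ 2 ≤ (∑ j ∈ S, ‖f j x‖) ^ 2 := by gcongr
        _ ≤ S.card * ∑ j ∈ S, ‖f j x‖ ^ 2 := sq_sum_le_card_mul_sum_sq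
    have e1 : ‖∑ j ∈ S, f j x‖ₑ ^ 2 = ENNReal.ofReal (‖∑ j ∈ S, f j x‖ ^ 2) := by
      rw [ENNReal.ofReal_pow (norm_nonneg _), ofReal_norm]
    have e2 : (S.card : ENNReal) * ∑ j ∈ S, ‖f j x‖ₑ ^ 2 =
        ENNReal.ofReal (S.card * ∑ j ∈ S, ‖f j x‖ ^ 2) := by
      rw [ENNReal.ofReal_mul (by positivity), ENNReal.ofReal_natCast,
        ENNReal.ofReal_sum_of_nonneg (fun j _ => by positivity)]
      congr 1
      apply Finset.sum_congr rfl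
      intro j _
      rw [ENNReal.ofReal_pow (norm_nonneg _), ofReal_norm]
    rw [e1, e2]
    exact ENNReal.ofReal_le_ofReal h2
  have hint : ∫⁻ x, ‖∑ j ∈ S, f j x‖ₑ ^ (2 * s) ≤
      (S.card : ENNReal) ^ s * ∫⁻ x, (∑ j ∈ S, ‖f j x‖ₑ ^ 2) ^ s := by
    calc ∫⁻ x, ‖∑ j ∈ S, f j x‖ₑ ^ (2 * s)
        ≤ ∫⁻ x, (S.card : ENNReal) ^ s * (∑ j ∈ S, ‖f j x‖ₑ ^ 2) ^ s := by
          apply lintegral_mono
          intro x
          have := hpt x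
          rw [mul_pow] at this
          exact this
      _ = _ := lintegral_const_mul' _ _ (by
          exact ENNReal.pow_ne_top (ENNReal.natCast_ne_top _))
  unfold NN
  calc (∫⁻ x, ‖∑ j ∈ S, f j x‖ₑ ^ (2 * s)) ^ (1 / (s : ℝ))
      ≤ ((S.card : ENNReal) ^ s * ∫⁻ x, (∑ j ∈ S, ‖f j x‖ₑ ^ 2) ^ s) ^ (1 / (s : ℝ)) := by
        gcongr
    _ = S.card * (∫⁻ x, (∑ j ∈ S, ‖f j x‖ₑ ^ 2) ^ s) ^ (1 / (s : ℝ)) := by
        rw [ENNReal.mul_rpow_of_nonneg _ _ (by positivity)]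
        congr 1
        rw [← ENNReal.rpow_natCast, ← ENNReal.rpow_mul, mul_one_div_cancel hsr, ENNReal.rpow_one]
    _ ≤ S.card * ∑ j ∈ S, (∫⁻ x, (‖f j x‖ₑ ^ 2) ^ s) ^ (1 / (s : ℝ)) := by
        gcongr
        exact Ls_sum_le volume hs S (fun j x => ‖f j x‖ₑ ^ 2)
          (fun j hj => ((hf j hj).measurable.enorm).pow_const 2)
    _ = _ := by simp only [pow_mul]

theorem lintegral_mink {X : Type} [MeasurableSpace X] (μ : Measure X) {a : ℕ} (ha : 1 ≤ a)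
    {ι : Type} (S : Finset ι) (w : X → ENNReal) (hw : Measurable w) (G : ι → X → ENNReal)
    (hG : ∀ j ∈ S, Measurable (G j)) :
    ∫⁻ x, w x * (∑ j ∈ S, G j x ^ (1 / (a : ℝ))) ^ a ∂μ ≤
      (∑ j ∈ S, (∫⁻ x, w x * G j x ∂μ) ^ (1 / (a : ℝ))) ^ a := by
  have ha0 : a ≠ 0 := by omega
  have har : (a : ℝ) ≠ 0 := by exact_mod_cast ha0
  have hm : ∀ j ∈ S, Measurable (fun x => G j x ^ (1 / (a : ℝ))) :=
    fun j hj => (hG j hj).pow_const _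
  have hpw : ∀ j x, (G j x ^ (1 / (a : ℝ))) ^ a = G j x := by
    intro j x
    rw [← ENNReal.rpow_natCast, ← ENNReal.rpow_mul, one_div, inv_mul_cancel₀ har,
      ENNReal.rpow_one]
  have h1 := Ls_sum_le (μ.withDensity w) ha S (fun j x => G j x ^ (1 / (a : ℝ))) hm
  have hS : Measurable (fun x => (∑ j ∈ S, G j x ^ (1 / (a : ℝ))) ^ a) :=
    (Finset.measurable_sum _ hm).pow_const a
  have e1 : ∫⁻ x, (∑ j ∈ S, G j x ^ (1 / (a : ℝ))) ^ a ∂(μ.withDensity w) =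
      ∫⁻ x, w x * (∑ j ∈ S, G j x ^ (1 / (a : ℝ))) ^ a ∂μ := by
    rw [lintegral_withDensity_eq_lintegral_mul μ hw hS]
    rfl
  have e2 : ∀ j ∈ S, ∫⁻ x, (G j x ^ (1 / (a : ℝ))) ^ a ∂(μ.withDensity w) =
      ∫⁻ x, w x * G j x ∂μ := by
    intro j hj
    simp only [hpw]
    rw [lintegral_withDensity_eq_lintegral_mul μ hw (hG j hj)]
    rfl
  rw [e1] at h1
  rw [Finset.sum_congr rfl (fun j hj => by rw [e2 j hj])] at h1
  calc ∫⁻ x, w x * (∑ j ∈ S, G j x ^ (1 / (a : ℝ))) ^ a ∂μ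
      = ((∫⁻ x, w x * (∑ j ∈ S, G j x ^ (1 / (a : ℝ))) ^ a ∂μ) ^ (1 / (a : ℝ))) ^ a := by
        rw [← ENNReal.rpow_natCast, ← ENNReal.rpow_mul, one_div, inv_mul_cancel₀ har,
          ENNReal.rpow_one]
    _ ≤ _ := by gcongr

/-- interpolation of powers -/
theorem pow_interp (x : ENNReal) (hx : x ≠ ⊤) (p p₀ p₁ : ℕ) (θ : ℝ) (h0 : 0 < θ) (h1 : θ < 1)
    (hp : (p : ℝ) = (1 - θ) * p₀ + θ * p₁) :
    x ^ p ≤ (x ^ p₀) ^ (1 - θ) * (x ^ p₁) ^ θ := by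
  have h1' : 0 < 1 - θ := by linarith
  rcases eq_or_ne x 0 with rfl | hx0
  · rcases Nat.eq_zero_or_pos p with rfl | hpos
    · have hp0 : p₀ = 0 := by
        by_contra h
        have : (0 : ℝ) < p₀ := by exact_mod_cast Nat.pos_of_ne_zero h
        have h2 : (0 : ℝ) ≤ p₁ := by positivity
        have h3 : 0 < (1 - θ) * (p₀ : ℝ) := by positivity
        have h4 : 0 ≤ θ * (p₁ : ℝ) := by positivity
        simp only [Nat.cast_zero] at hp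
        linarith
      have hp1 : p₁ = 0 := by
        by_contra h
        have : (0 : ℝ) < p₁ := by exact_mod_cast Nat.pos_of_ne_zero h
        have h2 : (0 : ℝ) ≤ p₀ := by positivity
        have h3 : 0 ≤ (1 - θ) * (p₀ : ℝ) := by positivity
        have h4 : 0 < θ * (p₁ : ℝ) := by positivity
        simp only [Nat.cast_zero] at hp
        linarith
      subst hp0 hp1
      simp
    · rw [zero_pow (by omega)]
      exact bot_le
  · apply le_of_eq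
    rw [← ENNReal.rpow_natCast, ← ENNReal.rpow_natCast, ← ENNReal.rpow_natCast,
      ← ENNReal.rpow_mul, ← ENNReal.rpow_mul, ← ENNReal.rpow_add _ _ hx0 hx]
    congr 1
    rw [hp]; ring

theorem holder_interp {X : Type} [MeasurableSpace X] (μ : Measure X) (F G : X → ENNReal)
    (hF : Measurable F) (hG : Measurable G) (hF' : ∀ x, F x ≠ ⊤) (hG' : ∀ x, G x ≠ ⊤)
    (p q p₀ q₀ p₁ q₁ : ℕ) (θ : ℝ) (h0 : 0 < θ) (h1 : θ < 1)
    (hp : (p : ℝ) = (1 - θ) * p₀ + θ * p₁) (hq : (q : ℝ) = (1 - θ) * q₀ + θ * q₁) :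
    ∫⁻ x, F x ^ p * G x ^ q ∂μ ≤
      (∫⁻ x, F x ^ p₀ * G x ^ q₀ ∂μ) ^ (1 - θ) * (∫⁻ x, F x ^ p₁ * G x ^ q₁ ∂μ) ^ θ := by
  have h1' : 0 ≤ 1 - θ := by linarith
  calc ∫⁻ x, F x ^ p * G x ^ q ∂μ
      ≤ ∫⁻ x, (F x ^ p₀ * G x ^ q₀) ^ (1 - θ) * (F x ^ p₁ * G x ^ q₁) ^ θ ∂μ := by
        apply lintegral_mono
        intro x
        have ha := pow_interp (F x) (hF' x) p p₀ p₁ θ h0 h1 hp
        have hb := pow_interp (G x) (hG' x) q q₀ q₁ θ h0 h1 hq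
        calc F x ^ p * G x ^ q
            ≤ ((F x ^ p₀) ^ (1 - θ) * (F x ^ p₁) ^ θ) *
                ((G x ^ q₀) ^ (1 - θ) * (G x ^ q₁) ^ θ) := by gcongr
          _ = (F x ^ p₀ * G x ^ q₀) ^ (1 - θ) * (F x ^ p₁ * G x ^ q₁) ^ θ := by
            rw [ENNReal.mul_rpow_of_nonneg _ _ h1', ENNReal.mul_rpow_of_nonneg _ _ h0.le]
            ring
    _ ≤ _ := ENNReal.lintegral_mul_norm_pow_le
        ((hF.pow_const _).mul (hG.pow_const _)).aemeasurable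
        ((hF.pow_const _).mul (hG.pow_const _)).aemeasurable h1' h0.le (by ring)

end Pool.Agent.DL
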